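import Pool.Agent.J4.H38.CH.Defs
import Pool.Agent.H441R3.BV.Fin

/-! Project CH, piece BVA: Bombieri-Vinogradov for the primes. -/

set_option autoImplicit false

namespace Pool.Agent.J4.H54.CH

open Finset Filter
open Pool.Agent.J4.H38.CH
open Pool.Agent.H442R2.EHI (piAP lis)
open Pool.Agent.H300R2.WEH (err piR eL)

lemma sum_wA (N q h : ℕ) :
    ∑ n ∈ (Icc 1 (2 * N)).filter (fun n => n ≡ h [MOD q]), wA N n = piAP N q h := by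
  classical
  unfold wA piAP
  rw [Finset.sum_boole, filter_filter]
  congr 2
  ext n
  simp only [mem_filter, mem_Icc]
  constructor
  · rintro ⟨⟨h1, h2⟩, h3, h4, h5⟩
    exact ⟨⟨h1, h5⟩, h4, h3⟩
  · rintro ⟨⟨h1, h2⟩, h3, h4⟩
    exact ⟨⟨h1, by omega⟩, h4, h3, h2⟩

lemma eL_le (N d l : ℕ) (hN : 2 ≤ N) (hd : 1 ≤ d) :
    |piAP N d l - lis N / (Nat.totient d : ℝ)| ≤ err N d l + 2 := by
  have hφ : (1 : ℝ) ≤ Nat.totient d := by exact_mod_cast Nat.totient_pos.mpr (by omega)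
  have h := Pool.Agent.H442R2.EHI.FinalOf.lis_sub N hN
  unfold err
  rw [Pool.Agent.H300R2.WEH.piR_eq, Nat.floor_natCast]
  set I := ∫ t in (2 : ℝ)..(N : ℝ), 1 / Real.log t
  have e : piAP N d l - lis N / (Nat.totient d : ℝ) =
      (piAP N d l - I / (Nat.totient d : ℝ)) - (lis N - I) / (Nat.totient d : ℝ) := by ring
  rw [e]
  refine (abs_sub _ _).trans ?_
  have h3 : |(lis N - I) / (Nat.totient d : ℝ)| ≤ 2 := by
    rw [abs_div, abs_of_pos (by linarith : (0:ℝ) < Nat.totient d), div_le_iff₀ (by linarith)]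
    linarith
  linarith

theorem bva : ∀ U : ℕ, ∀ᶠ N : ℕ in atTop, Dist (wA N) (Pool.Agent.H442R2.EHI.lis N) (2 * N)
    ⌊(N : ℝ) ^ (999 / 2000 : ℝ)⌋₊ (N / Real.log N ^ U) := by
  intro U
  obtain ⟨C, hC, x0, hm⟩ := Pool.Agent.H441R3.BV.main_nat (U + 1)
  have e1 := (Pool.Agent.H398R2.BV.ev_log (4 * C) (U + 2) (1 / 2000) (by norm_num)).and
    ((Pool.Agent.H398R2.BV.ev_log 8 U (1 / 2) (by norm_num)).and
    ((Real.tendsto_log_atTop.eventually (eventually_ge_atTop (max 4 (4 * C)))).and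
      (eventually_ge_atTop 4)))
  have e2 := tendsto_natCast_atTop_atTop (R := ℝ) |>.eventually e1
  filter_upwards [e2, eventually_ge_atTop x0, eventually_ge_atTop 4] with N hN hx h4
  obtain ⟨w1, w2, w3, w4⟩ := hN
  intro h hh
  set Λ := Real.log N with hΛ
  have hN0 : (0:ℝ) < N := by linarith
  have hΛ4 : 4 ≤ Λ := (le_max_left _ _).trans w3
  have hΛC : 4 * C ≤ Λ := (le_max_right _ _).trans w3
  have hΛ0 : 0 < Λ := by linarith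
  set Q := ⌊(N : ℝ) ^ (999 / 2000 : ℝ)⌋₊ with hQ
  have hQr : (Q : ℝ) ≤ (N : ℝ) ^ (999 / 2000 : ℝ) := Nat.floor_le (by positivity)
  have hN1 : (1:ℝ) ≤ N := by linarith
  have hQ2 : Q ^ 2 ≤ N := by
    have h1 : ((Q ^ 2 : ℕ) : ℝ) ≤ N := by
      push_cast
      calc (Q:ℝ) ^ 2 ≤ ((N : ℝ) ^ (999 / 2000 : ℝ)) ^ 2 := by gcongr
        _ = (N : ℝ) ^ (999 / 1000 : ℝ) := by
            rw [← Real.rpow_natCast, ← Real.rpow_mul hN0.le]; norm_num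
        _ ≤ (N : ℝ) ^ (1 : ℝ) := Real.rpow_le_rpow_of_exponent_le hN1 (by norm_num)
        _ = N := Real.rpow_one _
    exact_mod_cast h1
  have hmain := hm N hx Q hQ2 (fun _ => (N : ℝ)) (fun d => ⟨by linarith, by simp⟩) h
    (fun d _ => hh d)
  have hs : ∑ q ∈ (Icc 1 Q).filter Squarefree,
      |∑ n ∈ (Icc 1 (2 * N)).filter (fun n => n ≡ h q [MOD q]), wA N n -
        lis N / (Nat.totient q : ℝ)| ≤ ∑ d ∈ Icc 1 Q, err (N : ℝ) d (h d) + Q * 2 := by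
    calc _ ≤ ∑ q ∈ Icc 1 Q, |∑ n ∈ (Icc 1 (2 * N)).filter (fun n => n ≡ h q [MOD q]), wA N n -
        lis N / (Nat.totient q : ℝ)| :=
          sum_le_sum_of_subset_of_nonneg (filter_subset _ _) (fun _ _ _ => abs_nonneg _)
      _ ≤ ∑ q ∈ Icc 1 Q, (err (N : ℝ) q (h q) + 2) := by
          refine sum_le_sum fun q hq => ?_
          rw [sum_wA]
          exact eL_le N q (h q) (by omega) (mem_Icc.1 hq).1
      _ = _ := by
          rw [sum_add_distrib, sum_const, Nat.card_Icc, Nat.add_sub_cancel, nsmul_eq_mul]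
  refine hs.trans ?_
  -- log log N ≤ log N
  have hll : Real.log Λ ^ 2 ≤ Λ ^ 2 := by
    have h1 : 0 ≤ Real.log Λ := Real.log_nonneg (by linarith)
    have h2 : Real.log Λ ≤ Λ := (Real.log_le_sub_one_of_pos hΛ0).trans (by linarith)
    exact pow_le_pow_left₀ h1 h2 2
  have hsq : Real.sqrt N = (N:ℝ) ^ (1/2:ℝ) := Real.sqrt_eq_rpow _
  have t1 : C * (N / Λ ^ (U + 1)) ≤ 1 / 4 * (N / Λ ^ U) := by
    rw [pow_succ, mul_div_assoc', mul_div_assoc', div_le_div_iff₀ (by positivity) (by positivity)]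
    have : 0 ≤ (N:ℝ) * Λ ^ U := by positivity
    nlinarith
  have t2 : C * (Q * Real.sqrt N * Real.log Λ ^ 2) ≤ 1 / 4 * (N / Λ ^ U) := by
    rw [mul_div_assoc', le_div_iff₀ (by positivity)]
    have h1 : (Q:ℝ) * Real.sqrt N ≤ (N:ℝ) ^ (1999 / 2000 : ℝ) := by
      rw [hsq]
      calc (Q:ℝ) * (N:ℝ) ^ (1/2:ℝ) ≤ (N : ℝ) ^ (999 / 2000 : ℝ) * (N:ℝ) ^ (1/2:ℝ) := by gcongr
        _ = (N:ℝ) ^ (1999 / 2000 : ℝ) := by rw [← Real.rpow_add hN0]; norm_num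
    have h2 : (N:ℝ) ^ (1999 / 2000 : ℝ) * (N:ℝ) ^ (1 / 2000 : ℝ) = N := by
      rw [← Real.rpow_add hN0]; norm_num
    have h3 : (0:ℝ) ≤ (N:ℝ) ^ (1999 / 2000 : ℝ) := by positivity
    calc C * (Q * Real.sqrt N * Real.log Λ ^ 2) * Λ ^ U
        ≤ C * ((N:ℝ) ^ (1999 / 2000 : ℝ) * Λ ^ 2) * Λ ^ U := by gcongr
      _ = 1 / 4 * ((N:ℝ) ^ (1999 / 2000 : ℝ) * (4 * C * Λ ^ (U + 2))) := by ring
      _ ≤ 1 / 4 * ((N:ℝ) ^ (1999 / 2000 : ℝ) * (N:ℝ) ^ (1 / 2000 : ℝ)) := by gcongr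
      _ = 1 / 4 * N := by rw [h2]
  have t3 : (Q:ℝ) * 2 ≤ 1 / 4 * (N / Λ ^ U) := by
    rw [mul_div_assoc', le_div_iff₀ (by positivity)]
    have h1 : (Q:ℝ) ≤ (N:ℝ) ^ (1 / 2 : ℝ) :=
      hQr.trans (Real.rpow_le_rpow_of_exponent_le hN1 (by norm_num))
    have h2 : (N:ℝ) ^ (1 / 2 : ℝ) * (N:ℝ) ^ (1 / 2 : ℝ) = N := by
      rw [← Real.rpow_add hN0]; norm_num
    have h3 : (0:ℝ) ≤ (N:ℝ) ^ (1 / 2 : ℝ) := by positivity
    calc (Q:ℝ) * 2 * Λ ^ U ≤ (N:ℝ) ^ (1 / 2 : ℝ) * 2 * Λ ^ U := by gcongr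
      _ = 1 / 4 * ((N:ℝ) ^ (1 / 2 : ℝ) * (8 * Λ ^ U)) := by ring
      _ ≤ 1 / 4 * ((N:ℝ) ^ (1 / 2 : ℝ) * (N:ℝ) ^ (1 / 2 : ℝ)) := by gcongr
      _ = 1 / 4 * N := by rw [h2]
  have t0 : 0 ≤ (N:ℝ) / Λ ^ U := by positivity
  rw [mul_add] at hmain
  linarith

end Pool.Agent.J4.H54.CH
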